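import Mathlib

set_option autoImplicit false
open Finset
open scoped ENNReal NNReal

namespace Pool.Agent.Results.MP_ca3f0d_an.MaximalBlowup

/-- The `k`-sphere `S_{d,k}(r)`: the `m ∈ ℤ^d` with `|m_1|^k + ... + |m_d|^k = r^k`. -/
def sphere (d k : ℕ) (r : ℝ) : Set (Fin d → ℤ) := {m | ∑ i, |(m i : ℝ)| ^ k = r ^ k}

/-- The admissible radii: `r > 0` with `r^k ∈ ℕ` and `N_{d,k}(r) > 0`. -/
def radii (d k : ℕ) : Set ℝ := {r | 0 < r ∧ (∃ n : ℕ, r ^ k = n) ∧ 0 < (sphere d k r).ncard}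

/-- The `k`-spherical average `A_r f(x) = N_{d,k}(r)⁻¹ ∑_{m ∈ S_{d,k}(r)} f(x - m)`. -/
noncomputable def avg (d k : ℕ) (r : ℝ) (f : (Fin d → ℤ) → ℂ) (x : Fin d → ℤ) : ℂ :=
  ((sphere d k r).ncard : ℂ)⁻¹ * ∑ᶠ m ∈ sphere d k r, f (x - m)

/-- The `k`-spherical maximal function `A_* f(x) = sup_r |A_r f(x)|`, with values in `[0, ∞]`. -/
noncomputable def maxFn (d k : ℕ) (f : (Fin d → ℤ) → ℂ) (x : Fin d → ℤ) : ℝ≥0∞ :=
  ⨆ r ∈ radii d k, ‖avg d k r f x‖ₑ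

/-- The maximal function over the `J` radii `r, q r, ..., q^(J-1) r`. -/
noncomputable def geoMax (d k q : ℕ) (r : ℝ) (J : ℕ) (f : (Fin d → ℤ) → ℂ) (x : Fin d → ℤ) :
    ℝ≥0∞ :=
  ⨆ j : Fin J, ‖avg d k ((q : ℝ) ^ (j : ℕ) * r) f x‖ₑ

/-- The unit mass at the origin. -/
noncomputable def dirac (d : ℕ) : (Fin d → ℤ) → ℂ := Pi.single 0 1

/-- `A_*` is bounded on `ℓ^p(ℤ^d)`. -/
def BoundedOn (d k : ℕ) (p : ℝ) : Prop :=
  ∃ C : ℝ≥0, ∀ f : (Fin d → ℤ) → ℂ, (∑' x, ‖f x‖ₑ ^ p) ^ (1 / p) ≠ ∞ →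
    (∑' x, (maxFn d k f x) ^ p) ^ (1 / p) ≤ C * (∑' x, ‖f x‖ₑ ^ p) ^ (1 / p)

/-- `A_*` is bounded from `ℓ^p(ℤ^d)` to `ℓ^{s,∞}(ℤ^d)` (weak type `(p,s)`). -/
def WeakType (d k : ℕ) (p s : ℝ) : Prop :=
  ∃ C : ℝ≥0, ∀ f : (Fin d → ℤ) → ℂ, (∑' x, ‖f x‖ₑ ^ p) ^ (1 / p) ≠ ∞ → ∀ t : ℝ≥0∞,
    t ^ s * ((Set.encard {x | t ≤ maxFn d k f x} : ℕ∞) : ℝ≥0∞) ≤
      (C * (∑' x, ‖f x‖ₑ ^ p) ^ (1 / p)) ^ s

theorem abs_eq (m : ℤ) : |(m : ℝ)| = (m.natAbs : ℝ) := by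
  rw [Nat.cast_natAbs, Int.cast_abs]

theorem mem_sphere_iff (d k : ℕ) (r : ℝ) (N : ℕ) (hr : r ^ k = N) (m : Fin d → ℤ) :
    m ∈ sphere d k r ↔ ∑ i, (m i).natAbs ^ k = N := by
  unfold sphere
  simp only [Set.mem_ofPred_eq, abs_eq, hr]
  constructor
  · intro h; exact_mod_cast h
  · intro h; exact_mod_cast h

/-- The local obstruction at `q`: all coordinates are divisible by `q`. -/
theorem all_dvd (q γ k d N : ℕ) (hγk : γ ≤ k)
    (hk : ∀ m : ℕ, ¬ q ∣ m → m ^ k ≡ 1 [MOD q ^ γ]) (hd : d < q ^ γ) (m : Fin d → ℤ)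
    (h : ∑ i, (m i).natAbs ^ k = q ^ k * N) : ∀ i, (q : ℤ) ∣ m i := by
  classical
  by_contra hc
  push Not at hc
  obtain ⟨i0, hi0⟩ := hc
  have hdvd : ((q ^ γ : ℕ) : ℤ) ∣ ((q ^ k : ℕ) : ℤ) := by
    exact_mod_cast pow_dvd_pow q hγk
  have key : ((q ^ γ : ℕ) : ℤ) ∣
      (((univ : Finset (Fin d)).filter fun i => ¬ q ∣ (m i).natAbs).card : ℤ) := by
    have h1 : ∀ i, ((q ^ γ : ℕ) : ℤ) ∣
        (((m i).natAbs ^ k : ℕ) : ℤ) - (if ¬ q ∣ (m i).natAbs then 1 else 0) := by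
      intro i
      by_cases hi : q ∣ (m i).natAbs
      · rw [if_neg (not_not.mpr hi), sub_zero]
        have : q ^ γ ∣ (m i).natAbs ^ k := (pow_dvd_pow q hγk).trans (pow_dvd_pow_of_dvd hi k)
        exact_mod_cast this
      · rw [if_pos hi]
        have := (Nat.modEq_iff_dvd.mp (hk _ hi).symm)
        simpa using this
    have h2 : ((q ^ γ : ℕ) : ℤ) ∣
        ∑ i, ((((m i).natAbs ^ k : ℕ) : ℤ) - (if ¬ q ∣ (m i).natAbs then (1 : ℤ) else 0)) :=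
      Finset.dvd_sum fun i _ => h1 i
    have h0 : ∑ i, (((m i).natAbs ^ k : ℕ) : ℤ) = ((q ^ k * N : ℕ) : ℤ) := by
      rw [← h]; push_cast; rfl
    rw [Finset.sum_sub_distrib, h0] at h2
    have h3 : (((univ : Finset (Fin d)).filter fun i => ¬ q ∣ (m i).natAbs).card : ℤ) =
        ∑ i, (if ¬ q ∣ (m i).natAbs then (1 : ℤ) else 0) := by
      rw [Finset.card_filter]; push_cast; rfl
    rw [h3]
    have h5 : ((q ^ γ : ℕ) : ℤ) ∣ ((q ^ k * N : ℕ) : ℤ) := by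
      rw [Nat.cast_mul]; exact hdvd.mul_right _
    have h4 := h5.sub h2
    simpa using h4
  have hle : ((univ : Finset (Fin d)).filter fun i => ¬ q ∣ (m i).natAbs).card ≤ d := by
    refine (Finset.card_filter_le _ _).trans ?_
    simp
  have hpos : 0 < ((univ : Finset (Fin d)).filter fun i => ¬ q ∣ (m i).natAbs).card := by
    rw [Finset.card_pos]
    refine ⟨i0, ?_⟩
    rw [Finset.mem_filter]
    refine ⟨Finset.mem_univ _, fun hq => hi0 ?_⟩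
    exact Int.natCast_dvd.mpr hq
  have key2 : q ^ γ ∣ ((univ : Finset (Fin d)).filter fun i => ¬ q ∣ (m i).natAbs).card := by
    exact_mod_cast key
  have := Nat.le_of_dvd hpos key2
  omega

/-- `S(q r) = q S(r)`. -/
theorem sphere_mul (q γ k d : ℕ) (hq : 0 < q) (hγk : γ ≤ k)
    (hk : ∀ m : ℕ, ¬ q ∣ m → m ^ k ≡ 1 [MOD q ^ γ]) (hd : d < q ^ γ) (r : ℝ) (N : ℕ)
    (hr : r ^ k = N) :
    sphere d k ((q : ℝ) * r) = (fun m : Fin d → ℤ => (q : ℤ) • m) '' sphere d k r := by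
  have hr' : ((q : ℝ) * r) ^ k = ((q ^ k * N : ℕ) : ℝ) := by
    rw [mul_pow, hr]; push_cast; rfl
  ext m
  rw [Set.mem_image, mem_sphere_iff d k _ _ hr']
  constructor
  · intro h
    have hdvd := all_dvd q γ k d N hγk hk hd m h
    choose c hc using hdvd
    refine ⟨c, ?_, ?_⟩
    · rw [mem_sphere_iff d k r N hr]
      have h3 : ∑ i, (m i).natAbs ^ k = q ^ k * ∑ i, (c i).natAbs ^ k := by
        rw [Finset.mul_sum]
        apply Finset.sum_congr rfl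
        intro i _
        rw [hc i, Int.natAbs_mul, Int.natAbs_natCast, mul_pow]
      rw [h3] at h
      exact Nat.eq_of_mul_eq_mul_left (by positivity) h
    · funext i
      simp only [Pi.smul_apply, smul_eq_mul]
      rw [hc i]
  · rintro ⟨c, hc, rfl⟩
    rw [mem_sphere_iff d k r N hr] at hc
    simp only [Pi.smul_apply, smul_eq_mul, Int.natAbs_mul, Int.natAbs_natCast, mul_pow]
    rw [← Finset.mul_sum, hc]

theorem sphere_pow (q γ k d : ℕ) (hq : 0 < q) (hγk : γ ≤ k)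
    (hk : ∀ m : ℕ, ¬ q ∣ m → m ^ k ≡ 1 [MOD q ^ γ]) (hd : d < q ^ γ) (r : ℝ) (N : ℕ)
    (hr : r ^ k = N) (j : ℕ) :
    sphere d k ((q : ℝ) ^ j * r) = (fun m : Fin d → ℤ => (q : ℤ) ^ j • m) '' sphere d k r := by
  induction j with
  | zero => simp
  | succ j ih =>
    have hr' : ((q : ℝ) ^ j * r) ^ k = (((q ^ j) ^ k * N : ℕ) : ℝ) := by
      rw [mul_pow, hr]; push_cast; rfl
    have h1 : (q : ℝ) ^ (j + 1) * r = (q : ℝ) * ((q : ℝ) ^ j * r) := by ring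
    rw [h1, sphere_mul q γ k d hq hγk hk hd _ _ hr', ih, Set.image_image]
    congr 1
    funext m
    rw [smul_smul, ← pow_succ']

theorem sphere_finite (d k : ℕ) (hk : 0 < k) (r : ℝ) (N : ℕ) (hr : r ^ k = N) :
    (sphere d k r).Finite := by
  apply (Set.finite_Icc (fun _ : Fin d => (-(N : ℤ))) (fun _ => (N : ℤ))).subset
  intro m hm
  rw [mem_sphere_iff d k r N hr] at hm
  have h1 : ∀ i, |m i| ≤ N := by
    intro i
    have h2 : (m i).natAbs ^ k ≤ ∑ i, (m i).natAbs ^ k :=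
      Finset.single_le_sum (f := fun i => (m i).natAbs ^ k) (fun j _ => Nat.zero_le _)
        (Finset.mem_univ i)
    rw [hm] at h2
    have h3 : (m i).natAbs ≤ (m i).natAbs ^ k := Nat.le_self_pow hk.ne' _
    have h4 : (m i).natAbs ≤ N := h3.trans h2
    rw [Int.abs_eq_natAbs]
    exact_mod_cast h4
  constructor
  · intro i; exact (abs_le.1 (h1 i)).1
  · intro i; exact (abs_le.1 (h1 i)).2

theorem smul_injective (q d : ℕ) (hq : 0 < q) (j : ℕ) :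
    Function.Injective (fun m : Fin d → ℤ => (q : ℤ) ^ j • m) := by
  intro x y hxy
  funext i
  have := congrFun hxy i
  simp only [Pi.smul_apply, smul_eq_mul] at this
  exact mul_left_cancel₀ (by positivity) this

theorem avg_eq (d k : ℕ) (r : ℝ) (hfin : (sphere d k r).Finite) (f : (Fin d → ℤ) → ℂ)
    (x : Fin d → ℤ) :
    avg d k r f x = ((sphere d k r).ncard : ℂ)⁻¹ * ∑ m ∈ hfin.toFinset, f (x - m) := by
  unfold avg
  rw [finsum_mem_eq_finite_toFinset_sum _ hfin]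

theorem avg_dirac (d k : ℕ) (r : ℝ) (hfin : (sphere d k r).Finite) (x : Fin d → ℤ)
    (hx : x ∈ sphere d k r) : ‖avg d k r (dirac d) x‖ₑ = ((sphere d k r).ncard : ℝ≥0∞)⁻¹ := by
  have hpos : 0 < (sphere d k r).ncard := (Set.ncard_pos hfin).2 ⟨x, hx⟩
  have h1 : avg d k r (dirac d) x = ((sphere d k r).ncard : ℂ)⁻¹ := by
    rw [avg_eq d k r hfin, Finset.sum_eq_single x]
    · simp [dirac]
    · intro m _ hm
      unfold dirac
      rw [Pi.single_eq_of_ne]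
      intro h
      exact hm (sub_eq_zero.1 h).symm
    · intro h
      exact absurd (hfin.mem_toFinset.mpr hx) h
  rw [h1, ← ofReal_norm, norm_inv, Complex.norm_natCast,
    ENNReal.ofReal_inv_of_pos (by exact_mod_cast hpos), ENNReal.ofReal_natCast]

/-- The pointwise convexity estimate. -/
theorem avg_rpow_le (d k : ℕ) (r : ℝ) (hfin : (sphere d k r).Finite)
    (hne : (sphere d k r).Nonempty) (f : (Fin d → ℤ) → ℂ) (x : Fin d → ℤ) (p : ℝ) (hp : 1 ≤ p) :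
    ‖avg d k r f x‖ₑ ^ p ≤
      ∑ m ∈ hfin.toFinset, ((sphere d k r).ncard : ℝ≥0∞)⁻¹ * ‖f (x - m)‖ₑ ^ p := by
  have hpos : 0 < (sphere d k r).ncard := (Set.ncard_pos hfin).2 hne
  have hw : ∑ m ∈ hfin.toFinset, ((sphere d k r).ncard : ℝ≥0∞)⁻¹ = 1 := by
    rw [Finset.sum_const, nsmul_eq_mul, ← Set.ncard_eq_toFinset_card _ hfin]
    exact ENNReal.mul_inv_cancel (by exact_mod_cast hpos.ne') (ENNReal.natCast_ne_top _)
  have h1 : ‖avg d k r f x‖ₑ ≤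
      ∑ m ∈ hfin.toFinset, ((sphere d k r).ncard : ℝ≥0∞)⁻¹ * ‖f (x - m)‖ₑ := by
    rw [avg_eq d k r hfin, enorm_mul, ← Finset.mul_sum]
    have h2 : ‖((sphere d k r).ncard : ℂ)⁻¹‖ₑ = ((sphere d k r).ncard : ℝ≥0∞)⁻¹ := by
      rw [← ofReal_norm, norm_inv, Complex.norm_natCast,
        ENNReal.ofReal_inv_of_pos (by exact_mod_cast hpos), ENNReal.ofReal_natCast]
    rw [h2]
    gcongr
    exact enorm_sum_le _ _
  calc ‖avg d k r f x‖ₑ ^ p
      ≤ (∑ m ∈ hfin.toFinset, ((sphere d k r).ncard : ℝ≥0∞)⁻¹ * ‖f (x - m)‖ₑ) ^ p :=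
        ENNReal.rpow_le_rpow h1 (by linarith)
    _ ≤ _ := ENNReal.rpow_arith_mean_le_arith_mean_rpow _ _ _ hw hp

/-- Each average is a contraction of `ℓ^p`, `p ≥ 1`. -/
theorem avg_contract (d k : ℕ) (r : ℝ) (hfin : (sphere d k r).Finite)
    (hne : (sphere d k r).Nonempty) (f : (Fin d → ℤ) → ℂ) (p : ℝ) (hp : 1 ≤ p) :
    ∑' x, ‖avg d k r f x‖ₑ ^ p ≤ ∑' x, ‖f x‖ₑ ^ p := by
  have hpos : 0 < (sphere d k r).ncard := (Set.ncard_pos hfin).2 hne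
  calc ∑' x, ‖avg d k r f x‖ₑ ^ p
      ≤ ∑' x, ∑ m ∈ hfin.toFinset, ((sphere d k r).ncard : ℝ≥0∞)⁻¹ * ‖f (x - m)‖ₑ ^ p :=
        ENNReal.tsum_le_tsum fun x => avg_rpow_le d k r hfin hne f x p hp
    _ = ∑ m ∈ hfin.toFinset, ∑' x, ((sphere d k r).ncard : ℝ≥0∞)⁻¹ * ‖f (x - m)‖ₑ ^ p :=
        Summable.tsum_finsetSum fun m _ => ENNReal.summable
    _ = ∑ m ∈ hfin.toFinset, ((sphere d k r).ncard : ℝ≥0∞)⁻¹ * ∑' x, ‖f x‖ₑ ^ p := by
        refine Finset.sum_congr rfl fun m _ => ?_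
        rw [ENNReal.tsum_mul_left]
        congr 1
        exact (Equiv.subRight m).tsum_eq (fun x => ‖f x‖ₑ ^ p)
    _ = ∑' x, ‖f x‖ₑ ^ p := by
        rw [← Finset.sum_mul, Finset.sum_const, nsmul_eq_mul, ← Set.ncard_eq_toFinset_card _ hfin,
          ENNReal.mul_inv_cancel (by exact_mod_cast hpos.ne') (ENNReal.natCast_ne_top _), one_mul]

/-- Everything that goes wrong for `A_*` in dimension `d` and degree `k` because of the prime `q`:
`A_*` is bounded on no `ℓ^p` and of no weak type `(p,s)` with `p, s < ∞`; all spheres satisfy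
`S(q r) = q S(r)`; and the maximal function over the `J` radii `q^j r`, `j < J`, has the largest
order of growth possible, `J^(1/p)`: it never exceeds `J^(1/p)` times the norm of `f`, and for the
unit mass it is at least `J^(1/p) N^(1/p-1)`, `N` the number of points of `S(r)`. -/
def Blowup (d k q : ℕ) : Prop :=
  (∀ p : ℝ, 0 < p → ¬ BoundedOn d k p) ∧
  (∀ p s : ℝ, 0 < p → 0 < s → ¬ WeakType d k p s) ∧
  ∀ r ∈ radii d k,
    sphere d k ((q : ℝ) * r) = (fun m : Fin d → ℤ => (q : ℤ) • m) '' sphere d k r ∧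
    ∀ J : ℕ,
      (∀ p : ℝ, 1 ≤ p → ∀ f : (Fin d → ℤ) → ℂ,
        ∑' x, (geoMax d k q r J f x) ^ p ≤ J * ∑' x, ‖f x‖ₑ ^ p) ∧
      (∀ p : ℝ, 0 < p →
        (J : ℝ≥0∞) * (((sphere d k r).ncard : ℝ≥0∞) * ((sphere d k r).ncard : ℝ≥0∞)⁻¹ ^ p) ≤
          ∑' x, (geoMax d k q r J (dirac d) x) ^ p)

theorem dirac_norm (d : ℕ) (p : ℝ) (hp : 0 < p) : ∑' x, ‖dirac d x‖ₑ ^ p = 1 := by
  rw [tsum_eq_single 0]
  · simp [dirac]
  · intro x hx
    unfold dirac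
    rw [Pi.single_eq_of_ne hx]
    simp [hp]

section Main

variable (q γ k d : ℕ) (hq : 2 ≤ q) (hγk : γ ≤ k)
  (hk : ∀ m : ℕ, ¬ q ∣ m → m ^ k ≡ 1 [MOD q ^ γ]) (hd0 : 0 < d) (hd : d < q ^ γ)

include hq hγk hk hd

theorem radii_pow (r : ℝ) (hr : r ∈ radii d k) (j : ℕ) :
    (q : ℝ) ^ j * r ∈ radii d k ∧
      (sphere d k ((q : ℝ) ^ j * r)).ncard = (sphere d k r).ncard := by
  obtain ⟨hr0, ⟨N, hN⟩, hc⟩ := hr
  have h1 : (sphere d k ((q : ℝ) ^ j * r)).ncard = (sphere d k r).ncard := by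
    rw [sphere_pow q γ k d (by omega) hγk hk hd r N hN j]
    exact Set.ncard_image_of_injective _ (smul_injective q d (by omega) j)
  refine ⟨⟨by positivity, ⟨(q ^ j) ^ k * N, ?_⟩, by rw [h1]; exact hc⟩, h1⟩
  rw [mul_pow, hN]; push_cast; rfl

theorem mem_pow (r : ℝ) (hr : r ∈ radii d k) (j : ℕ) (m : Fin d → ℤ) (hm : m ∈ sphere d k r) :
    (q : ℤ) ^ j • m ∈ sphere d k ((q : ℝ) ^ j * r) := by
  obtain ⟨hr0, ⟨N, hN⟩, hc⟩ := hr
  rw [sphere_pow q γ k d (by omega) hγk hk hd r N hN j]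
  exact ⟨m, hm, rfl⟩

theorem avg_dirac_pow (r : ℝ) (hr : r ∈ radii d k) (j : ℕ) (m : Fin d → ℤ)
    (hm : m ∈ sphere d k r) :
    ‖avg d k ((q : ℝ) ^ j * r) (dirac d) ((q : ℤ) ^ j • m)‖ₑ =
      ((sphere d k r).ncard : ℝ≥0∞)⁻¹ := by
  obtain ⟨h1, h2⟩ := radii_pow q γ k d hq hγk hk hd r hr j
  rw [avg_dirac d k _ (Set.finite_of_ncard_pos h1.2.2) _
    (mem_pow q γ k d hq hγk hk hd r hr j m hm), h2]

/-- The points `q^j m`, `m ∈ S(r)`, are pairwise different. -/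
theorem pair_injective (r : ℝ) (hr : r ∈ radii d k) (hk0 : 0 < k) :
    Function.Injective (fun t : ℕ × sphere d k r => (q : ℤ) ^ t.1 • (t.2 : Fin d → ℤ)) := by
  rintro ⟨i, m, hm⟩ ⟨j, n, hn⟩ h
  simp only at h
  have hr0 := hr.1
  have h1 := mem_pow q γ k d hq hγk hk hd r hr i m hm
  have h2 := mem_pow q γ k d hq hγk hk hd r hr j n hn
  rw [← h] at h2
  have h3 : ((q : ℝ) ^ i * r) ^ k = ((q : ℝ) ^ j * r) ^ k := by
    unfold sphere at h1 h2
    rw [Set.mem_ofPred_eq] at h1 h2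
    exact h1.symm.trans h2
  have h4 : (q : ℝ) ^ i * r = (q : ℝ) ^ j * r :=
    (pow_left_inj₀ (by positivity) (by positivity) hk0.ne').mp h3
  have h5 : (q : ℝ) ^ i = (q : ℝ) ^ j := mul_right_cancel₀ hr0.ne' h4
  have h6 : i = j := by
    have : (1 : ℝ) < q := by exact_mod_cast (by omega : 1 < q)
    exact pow_right_injective₀ (by linarith) this.ne' h5
  subst h6
  have := smul_injective q d (by omega) i h
  subst this
  rfl

theorem level_infinite (r : ℝ) (hr : r ∈ radii d k) (hk0 : 0 < k) :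
    {x | ((sphere d k r).ncard : ℝ≥0∞)⁻¹ ≤ maxFn d k (dirac d) x}.Infinite := by
  have hne : (sphere d k r).Nonempty := Set.nonempty_of_ncard_ne_zero hr.2.2.ne'
  obtain ⟨m, hm⟩ := hne
  apply Set.infinite_of_injective_forall_mem (f := fun j : ℕ => (q : ℤ) ^ j • m)
  · intro i j hij
    have := pair_injective q γ k d hq hγk hk hd r hr hk0
      (a₁ := (i, ⟨m, hm⟩)) (a₂ := (j, ⟨m, hm⟩)) hij
    exact congrArg Prod.fst this
  · intro j
    rw [Set.mem_ofPred_eq, ← avg_dirac_pow q γ k d hq hγk hk hd r hr j m hm]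
    exact le_iSup₂_of_le ((q : ℝ) ^ j * r) (radii_pow q γ k d hq hγk hk hd r hr j).1 le_rfl

theorem not_weak (r : ℝ) (hr : r ∈ radii d k) (hk0 : 0 < k) (p s : ℝ) (hp : 0 < p)
    (hs : 0 < s) : ¬ WeakType d k p s := by
  rintro ⟨C, hC⟩
  have h1 := hC (dirac d) (by rw [dirac_norm d p hp]; simp) ((sphere d k r).ncard : ℝ≥0∞)⁻¹
  have h2 := level_infinite q γ k d hq hγk hk hd r hr hk0
  rw [h2.encard_eq, ENat.toENNReal_top, dirac_norm d p hp, ENNReal.one_rpow, mul_one,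
    ENNReal.mul_top] at h1
  · have h3 : (C : ℝ≥0∞) ^ s ≠ ⊤ := ENNReal.rpow_ne_top_of_nonneg hs.le ENNReal.coe_ne_top
    exact h3 (top_le_iff.mp h1)
  · have h3 : (((sphere d k r).ncard : ℝ≥0∞)⁻¹) ≠ 0 := by simp
    exact (ENNReal.rpow_pos (pos_iff_ne_zero.2 h3)
      (by simpa using hr.2.2.ne')).ne'

theorem not_bounded (r : ℝ) (hr : r ∈ radii d k) (hk0 : 0 < k) (p : ℝ) (hp : 0 < p) :
    ¬ BoundedOn d k p := by
  rintro ⟨C, hC⟩
  have hne : (sphere d k r).Nonempty := Set.nonempty_of_ncard_ne_zero hr.2.2.ne'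
  obtain ⟨m, hm⟩ := hne
  have htop : ∑' x, (maxFn d k (dirac d) x) ^ p = ∞ := by
    rw [eq_top_iff]
    have h1 : ∑' j : ℕ, (((sphere d k r).ncard : ℝ≥0∞)⁻¹) ^ p = ∞ := by
      rw [ENNReal.tsum_const_eq_top_of_ne_zero]
      have h2 : ((sphere d k r).ncard : ℝ≥0∞)⁻¹ ≠ 0 := by simp
      exact (ENNReal.rpow_pos (pos_iff_ne_zero.2 h2) (by simpa using hr.2.2.ne')).ne'
    rw [← h1]
    have hinj : Function.Injective (fun j : ℕ => (q : ℤ) ^ j • m) := by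
      intro i j hij
      have := pair_injective q γ k d hq hγk hk hd r hr hk0
        (a₁ := (i, ⟨m, hm⟩)) (a₂ := (j, ⟨m, hm⟩)) hij
      exact congrArg Prod.fst this
    calc ∑' j : ℕ, (((sphere d k r).ncard : ℝ≥0∞)⁻¹) ^ p
        ≤ ∑' j : ℕ, (maxFn d k (dirac d) ((q : ℤ) ^ j • m)) ^ p := by
          refine ENNReal.tsum_le_tsum fun j => ENNReal.rpow_le_rpow ?_ hp.le
          rw [← avg_dirac_pow q γ k d hq hγk hk hd r hr j m hm]
          exact le_iSup₂_of_le ((q : ℝ) ^ j * r) (radii_pow q γ k d hq hγk hk hd r hr j).1 le_rfl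
      _ ≤ ∑' x, (maxFn d k (dirac d) x) ^ p :=
          ENNReal.tsum_comp_le_tsum_of_injective hinj (fun x => (maxFn d k (dirac d) x) ^ p)
  have h := hC (dirac d) (by rw [dirac_norm d p hp]; simp)
  rw [dirac_norm d p hp, htop, ENNReal.top_rpow_of_pos (by positivity), ENNReal.one_rpow,
    mul_one] at h
  exact absurd h (by simp)

theorem geo_upper (r : ℝ) (hr : r ∈ radii d k) (J : ℕ) (p : ℝ) (hp : 1 ≤ p)
    (f : (Fin d → ℤ) → ℂ) :
    ∑' x, (geoMax d k q r J f x) ^ p ≤ J * ∑' x, ‖f x‖ₑ ^ p := by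
  have hp0 : 0 < p := by linarith
  have h1 : ∀ x, (geoMax d k q r J f x) ^ p ≤
      ∑ j : Fin J, ‖avg d k ((q : ℝ) ^ (j : ℕ) * r) f x‖ₑ ^ p := by
    intro x
    have h2 : geoMax d k q r J f x ≤
        (∑ j : Fin J, ‖avg d k ((q : ℝ) ^ (j : ℕ) * r) f x‖ₑ ^ p) ^ (1 / p) := by
      unfold geoMax
      refine iSup_le fun j => ?_
      have h3 : ‖avg d k ((q : ℝ) ^ (j : ℕ) * r) f x‖ₑ ^ p ≤
          ∑ j : Fin J, ‖avg d k ((q : ℝ) ^ (j : ℕ) * r) f x‖ₑ ^ p :=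
        Finset.single_le_sum (f := fun j : Fin J => ‖avg d k ((q : ℝ) ^ (j : ℕ) * r) f x‖ₑ ^ p)
          (fun _ _ => zero_le) (Finset.mem_univ j)
      calc ‖avg d k ((q : ℝ) ^ (j : ℕ) * r) f x‖ₑ
          = (‖avg d k ((q : ℝ) ^ (j : ℕ) * r) f x‖ₑ ^ p) ^ (1 / p) := by
            rw [← ENNReal.rpow_mul, mul_one_div_cancel hp0.ne', ENNReal.rpow_one]
        _ ≤ _ := ENNReal.rpow_le_rpow h3 (by positivity)
    calc (geoMax d k q r J f x) ^ p
        ≤ ((∑ j : Fin J, ‖avg d k ((q : ℝ) ^ (j : ℕ) * r) f x‖ₑ ^ p) ^ (1 / p)) ^ p :=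
          ENNReal.rpow_le_rpow h2 hp0.le
      _ = _ := by rw [← ENNReal.rpow_mul, one_div_mul_cancel hp0.ne', ENNReal.rpow_one]
  calc ∑' x, (geoMax d k q r J f x) ^ p
      ≤ ∑' x, ∑ j : Fin J, ‖avg d k ((q : ℝ) ^ (j : ℕ) * r) f x‖ₑ ^ p :=
        ENNReal.tsum_le_tsum h1
    _ = ∑ j : Fin J, ∑' x, ‖avg d k ((q : ℝ) ^ (j : ℕ) * r) f x‖ₑ ^ p :=
        Summable.tsum_finsetSum fun m _ => ENNReal.summable
    _ ≤ ∑ _j : Fin J, ∑' x, ‖f x‖ₑ ^ p := by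
        refine Finset.sum_le_sum fun j _ => ?_
        have h2 := (radii_pow q γ k d hq hγk hk hd r hr j).1
        exact avg_contract d k _ (Set.finite_of_ncard_pos h2.2.2)
          (Set.nonempty_of_ncard_ne_zero h2.2.2.ne') f p hp
    _ = J * ∑' x, ‖f x‖ₑ ^ p := by
        rw [Finset.sum_const, Finset.card_univ, Fintype.card_fin, nsmul_eq_mul]

theorem geo_lower (r : ℝ) (hr : r ∈ radii d k) (hk0 : 0 < k) (J : ℕ) (p : ℝ) (hp : 0 < p) :
    (J : ℝ≥0∞) * (((sphere d k r).ncard : ℝ≥0∞) * ((sphere d k r).ncard : ℝ≥0∞)⁻¹ ^ p) ≤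
      ∑' x, (geoMax d k q r J (dirac d) x) ^ p := by
  have hfin : (sphere d k r).Finite := Set.finite_of_ncard_pos hr.2.2
  have hinj : Function.Injective
      (fun t : Fin J × sphere d k r => (q : ℤ) ^ (t.1 : ℕ) • (t.2 : Fin d → ℤ)) := by
    rintro ⟨i, m⟩ ⟨j, n⟩ h
    have := pair_injective q γ k d hq hγk hk hd r hr hk0
      (a₁ := ((i : ℕ), m)) (a₂ := ((j : ℕ), n)) h
    rw [Prod.mk.injEq] at this
    exact Prod.ext (Fin.ext this.1) this.2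
  calc (J : ℝ≥0∞) * (((sphere d k r).ncard : ℝ≥0∞) * ((sphere d k r).ncard : ℝ≥0∞)⁻¹ ^ p)
      = ∑' _t : Fin J × sphere d k r, (((sphere d k r).ncard : ℝ≥0∞)⁻¹) ^ p := by
        have := hfin.fintype
        rw [tsum_fintype, Finset.sum_const, Finset.card_univ, Fintype.card_prod,
          Fintype.card_fin, nsmul_eq_mul, ← Nat.card_eq_fintype_card, Nat.card_coe_set_eq]
        push_cast
        ring
    _ ≤ ∑' t : Fin J × sphere d k r,
          (geoMax d k q r J (dirac d) ((q : ℤ) ^ (t.1 : ℕ) • (t.2 : Fin d → ℤ))) ^ p := by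
        refine ENNReal.tsum_le_tsum fun t => ENNReal.rpow_le_rpow ?_ hp.le
        rw [← avg_dirac_pow q γ k d hq hγk hk hd r hr t.1 t.2 t.2.2]
        unfold geoMax
        exact le_iSup (fun j : Fin J => ‖avg d k ((q : ℝ) ^ (j : ℕ) * r) (dirac d)
          ((q : ℤ) ^ (t.1 : ℕ) • (t.2 : Fin d → ℤ))‖ₑ) t.1
    _ ≤ ∑' x, (geoMax d k q r J (dirac d) x) ^ p :=
        ENNReal.tsum_comp_le_tsum_of_injective hinj
          (fun x => (geoMax d k q r J (dirac d) x) ^ p)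

include hd0

omit hq hγk hk hd in
theorem one_mem_radii (hk0 : 0 < k) : (1 : ℝ) ∈ radii d k := by
  refine ⟨one_pos, ⟨1, by simp⟩, ?_⟩
  have hfin := sphere_finite d k hk0 1 1 (by simp)
  rw [Set.ncard_pos hfin]
  refine ⟨Pi.single ⟨0, hd0⟩ 1, ?_⟩
  rw [mem_sphere_iff d k 1 1 (by simp), Finset.sum_eq_single (⟨0, hd0⟩ : Fin d)]
  · simp
  · intro i _ hi
    rw [Pi.single_eq_of_ne hi, Int.natAbs_zero, zero_pow hk0.ne']
  · intro h; exact absurd (Finset.mem_univ _) h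

theorem blowup : Blowup d k q := by
  have hk0 : 0 < k := by
    rcases Nat.eq_zero_or_pos k with h | h
    · exfalso
      have : γ = 0 := by omega
      rw [this, pow_zero] at hd
      omega
    · exact h
  have h1 := one_mem_radii k d hd0 hk0
  refine ⟨fun p hp => not_bounded q γ k d hq hγk hk hd 1 h1 hk0 p hp,
    fun p s hp hs => not_weak q γ k d hq hγk hk hd 1 h1 hk0 p s hp hs, fun r hr => ⟨?_, ?_⟩⟩
  · obtain ⟨N, hN⟩ := hr.2.1
    exact sphere_mul q γ k d (by omega) hγk hk hd r N hN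
  · exact fun J => ⟨fun p hp f => geo_upper q γ k d hq hγk hk hd r hr J p hp f,
      fun p hp => geo_lower q γ k d hq hγk hk hd r hr hk0 J p hp⟩

end Main

theorem odd_pow (a : ℕ) (ha : 1 ≤ a) (m : ℤ) (hm : Odd m) :
    ∃ t : ℤ, m ^ (2 ^ a) = 1 + 2 ^ (a + 2) * t := by
  induction a, ha using Nat.le_induction with
  | base =>
    obtain ⟨s, rfl⟩ := hm
    have h : Even (s * (s + 1)) := Int.even_mul_succ_self s
    obtain ⟨u, hu⟩ := h
    refine ⟨u, ?_⟩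
    have : (2 * s + 1) ^ (2 ^ 1) = 1 + 4 * (s * (s + 1)) := by ring
    rw [this, hu]; ring
  | succ a ha ih =>
    obtain ⟨t, ht⟩ := ih
    refine ⟨t + 2 ^ (a + 1) * t ^ 2, ?_⟩
    rw [pow_succ 2 a, pow_mul, ht]
    have e : (2:ℤ) ^ (a + 1 + 2) = 2 * 2 ^ (a + 2) := by rw [← pow_succ']
    have e2 : (2:ℤ) ^ (a + 2) = 2 * 2 ^ (a + 1) := by rw [← pow_succ']
    rw [e, e2]
    ring

theorem odd_modEq (a b : ℕ) (ha : 1 ≤ a) (m : ℕ) (hm : ¬ 2 ∣ m) :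
    m ^ (2 ^ a * b) ≡ 1 [MOD 2 ^ (a + 2)] := by
  have hodd : Odd (m : ℤ) := by
    rw [Int.odd_coe_nat, Nat.odd_iff]
    omega
  obtain ⟨t, ht⟩ := odd_pow a ha m hodd
  have h1 : m ^ (2 ^ a) ≡ 1 [MOD 2 ^ (a + 2)] := by
    refine (Nat.modEq_iff_dvd.mpr ?_).symm
    push_cast
    rw [ht]
    exact ⟨t, by ring⟩
  rw [pow_mul]
  simpa using h1.pow b

theorem le_two_pow (a : ℕ) (ha : 2 ≤ a) : a + 2 ≤ 2 ^ a := by
  induction a, ha using Nat.le_induction with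
  | base => norm_num
  | succ a ha ih => rw [pow_succ]; omega

theorem even_case (a b d : ℕ) (ha : 1 ≤ a) (hb : 4 ≤ 2 ^ a * b) (hd0 : 0 < d)
    (hd : d < 4 * 2 ^ a) : Blowup d (2 ^ a * b) 2 := by
  have hγ : a + 2 ≤ 2 ^ a * b := by
    rcases Nat.lt_or_ge a 2 with h | h
    · have : a = 1 := by omega
      subst this
      omega
    · have hb0 : 0 < b := by
        rcases Nat.eq_zero_or_pos b with h0 | h0
        · rw [h0] at hb; omega
        · exact h0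
      exact (le_two_pow a h).trans (Nat.le_mul_of_pos_right _ hb0)
  refine blowup 2 (a + 2) (2 ^ a * b) d (le_refl 2) hγ
    (fun m hm => odd_modEq a b ha m hm) hd0 ?_
  rw [pow_add]
  omega

theorem totient_case (q γ k d : ℕ) (hq : q.Prime) (hγ : 1 ≤ γ) (hk0 : 0 < k)
    (hk : Nat.totient (q ^ γ) ∣ k) (hd0 : 0 < d) (hd : d < q ^ γ) : Blowup d k q := by
  refine blowup q γ k d hq.two_le ?_ ?_ hd0 hd
  · have h1 : γ ≤ Nat.totient (q ^ γ) := by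
      rw [Nat.totient_prime_pow hq (by omega)]
      have h2 : γ - 1 < q ^ (γ - 1) := Nat.lt_pow_self hq.one_lt
      have h3 : q ^ (γ - 1) ≤ q ^ (γ - 1) * (q - 1) :=
        Nat.le_mul_of_pos_right _ (by have := hq.two_le; omega)
      omega
    exact h1.trans (Nat.le_of_dvd hk0 hk)
  · intro m hm
    obtain ⟨c, rfl⟩ := hk
    have hcop : Nat.Coprime m (q ^ γ) :=
      Nat.Coprime.pow_right γ ((Nat.Prime.coprime_iff_not_dvd hq).mpr hm).symm
    have h1 := Nat.ModEq.pow_totient hcop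
    rw [pow_mul]
    simpa using h1.pow c

theorem maxFn_le_sup (d k : ℕ) (f : (Fin d → ℤ) → ℂ) (x : Fin d → ℤ) :
    maxFn d k f x ≤ ⨆ y, ‖f y‖ₑ := by
  unfold maxFn
  refine iSup₂_le fun r hr => ?_
  have hpos := hr.2.2
  have hfin := Set.finite_of_ncard_pos hpos
  have h1 := avg_rpow_le d k r hfin (Set.nonempty_of_ncard_ne_zero hpos.ne') f x 1 le_rfl
  simp only [ENNReal.rpow_one] at h1
  refine h1.trans ?_
  calc ∑ m ∈ hfin.toFinset, ((sphere d k r).ncard : ℝ≥0∞)⁻¹ * ‖f (x - m)‖ₑ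
      ≤ ∑ m ∈ hfin.toFinset, ((sphere d k r).ncard : ℝ≥0∞)⁻¹ * ⨆ y, ‖f y‖ₑ := by
        refine Finset.sum_le_sum fun m _ => ?_
        gcongr
        exact le_iSup (fun y => ‖f y‖ₑ) (x - m)
    _ = ⨆ y, ‖f y‖ₑ := by
        rw [Finset.sum_const, nsmul_eq_mul, ← Set.ncard_eq_toFinset_card _ hfin, ← mul_assoc,
          ENNReal.mul_inv_cancel (by exact_mod_cast hpos.ne') (ENNReal.natCast_ne_top _), one_mul]

/-- **Main theorem.**
1. Q1 is false: for `k = 2^a`, `a ≥ 2`, and every `1 ≤ d < 4k` (so also for `2k < d < 4k`) the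
   maximal operator is bounded on no `ℓ^p(ℤ^d)`, `0 < p < ∞`, it is of no weak type `(p,s)` with
   `p, s < ∞`, and along every geometric sequence of radii `2^j r` its truncations grow at the
   maximal possible rate `J^(1/p)`.
2. The same for every even degree `k = 2^a b ≥ 4` and `1 ≤ d < 4 · 2^a`.
3. The same for every prime `q` and every `k` divisible by `φ(q^γ)` and `1 ≤ d < q^γ`.
4. More generally, whenever all `k`-th powers of integers prime to `q` are `1` modulo `q^γ`.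
5. On `ℓ^∞` the operator is a contraction. -/
theorem result :
    (∀ a d : ℕ, 2 ≤ a → 0 < d → d < 4 * 2 ^ a → Blowup d (2 ^ a) 2) ∧
    (∀ a b d : ℕ, 1 ≤ a → 4 ≤ 2 ^ a * b → 0 < d → d < 4 * 2 ^ a → Blowup d (2 ^ a * b) 2) ∧
    (∀ q γ k d : ℕ, q.Prime → 1 ≤ γ → 0 < k → Nat.totient (q ^ γ) ∣ k → 0 < d → d < q ^ γ →
      Blowup d k q) ∧
    (∀ q γ k d : ℕ, 2 ≤ q → γ ≤ k → (∀ m : ℕ, ¬ q ∣ m → m ^ k ≡ 1 [MOD q ^ γ]) → 0 < d →
      d < q ^ γ → Blowup d k q) ∧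
    (∀ (d k : ℕ) (f : (Fin d → ℤ) → ℂ) (x : Fin d → ℤ), maxFn d k f x ≤ ⨆ y, ‖f y‖ₑ) := by
  refine ⟨?_, fun a b d ha hb hd0 hd => even_case a b d ha hb hd0 hd,
    fun q γ k d hq hγ hk0 hk hd0 hd => totient_case q γ k d hq hγ hk0 hk hd0 hd,
    fun q γ k d hq hγ hk hd0 hd => blowup q γ k d hq hγ hk hd0 hd,
    fun d k f x => maxFn_le_sup d k f x⟩
  intro a d ha hd0 hd
  have h1 : 4 ≤ 2 ^ a * 1 := by
    have : 2 ^ 2 ≤ 2 ^ a := Nat.pow_le_pow_right (by norm_num) ha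
    omega
  have := even_case a 1 d (by omega) h1 hd0 hd
  rwa [mul_one] at this

end Pool.Agent.Results.MP_ca3f0d_an.MaximalBlowup
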